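import Pool.Agent.MP_434e52_an.Defs
import Pool.Agent.MP_434e52_an.WDefs
import Pool.Agent.MP_434e52_an.Weil

set_option autoImplicit false

namespace Pool.Agent.Results.MP_434e52_an.Arithmetic

open Pool.Agent.MP_434e52_an Polynomial

/-- The group `F[t]^(2n) ⋊ Sp_(2n)(F[t])` in characteristic two has the von Neumann algebra of an
extension of `Sp_(2n)(F[t])` by `F[t]^(2n)` which is not virtually isomorphic to it. -/
theorem result (F : Type) [Field F] [Fintype F] [CharP F 2] (hF : 8 ≤ Fintype.card F)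
    (n : ℕ) (hn : 2 ≤ n) :
    Countable (AffSp (Fin n) F[X]) ∧ PropT (AffSp (Fin n) F[X]) ∧ ICC (AffSp (Fin n) F[X]) ∧
    ∃ (H : Type) (_ : Group H) (ι : Multiplicative (Fin n ⊕ Fin n → F[X]) →* H)
      (p : H →* Matrix.symplecticGroup (Fin n) F[X]),
      Function.Injective ι ∧ Function.Surjective p ∧ p.ker = ι.range ∧
      (∀ x v, x * ι v * x⁻¹ = ι (spAct (Fin n) F[X] (p x) v)) ∧
      Countable H ∧ PropT H ∧ ICC H ∧
      VNIso (AffSp (Fin n) F[X]) H ∧ ¬ VirtIso (AffSp (Fin n) F[X]) H := by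
  let _ : Algebra (ZMod 2) F := ZMod.algebra F 2
  have : Nontrivial (Fin n) := Fin.nontrivial_iff_two_le.2 hn
  have : Countable F[X] := countable_poly
  have : Countable (Matrix.symplecticGroup (Fin n) F[X]) :=
    Function.Injective.countable (f := fun g (i j : Fin n ⊕ Fin n) => g.1 i j)
      Subtype.val_injective
  let E := Weil.twEx (Fin n) F
  refine ⟨Function.Injective.countable (f := fun x => (x.left.toAdd, x.right)) fun x y h =>
      SemidirectProduct.ext (congrArg Prod.fst h) (congrArg Prod.snd h),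
    Weil.propT_aff hF, (Weil.afEx _ _).icc, Weil.TW (Fin n) F, inferInstance,
    MonoidHom.mk' (fun v => E.ι v.toAdd) fun _ _ => E.add _ _, E.p, fun _ _ h => E.inj h, E.surj,
    Subgroup.ext fun x => (E.ker x).trans (exists_congr fun _ => eq_comm), fun x v => ?_, ?_,
    Weil.tw_propT (Weil.propT_aff hF), E.icc, Weil.tw_vn, Weil.tw_not_virt⟩
  · exact mul_inv_eq_iff_eq_mul.2 (E.conj x v.toAdd)
  · have := Cm.countable_G (c := Weil.ci (Fin n) F[X])
    infer_instance

end Pool.Agent.Results.MP_434e52_an.Arithmetic
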