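import Pool.Agent.MP_434e52_an.Defs
import Pool.Agent.MP_434e52_an.TDefs
import Pool.Agent.MP_434e52_an.HG.Base

set_option autoImplicit false

namespace Pool.Agent.Results.MP_434e52_an.HyperbolicTwins

open Pool.Agent.MP_434e52_an

/-- Two word-hyperbolic ICC property (T) groups with one group von Neumann algebra which are not
virtually isomorphic. -/
theorem result : ∃ (G G' : Type) (_ : Group G) (_ : Group G'),
    Hyperbolic G ∧ Hyperbolic G' ∧ Infinite G ∧ Infinite G' ∧ FreeInNormal G ∧ FreeInNormal G' ∧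
      ICC G ∧ ICC G' ∧ PropT G ∧ PropT G' ∧ VNIso G G' ∧ ¬ VirtIso G G' := by
  obtain ⟨G, G', _, _, h1, h2, h3, h4, h5, h6, h7, h8, h9, h10, h11, h12, -⟩ := H29.main
  exact ⟨G, G', _, _, h1, h2, h3, h4, h11, h12, h5, h6, h7, h8, h9, h10⟩

end Pool.Agent.Results.MP_434e52_an.HyperbolicTwins
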