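import Pool.Agent.MP_434e52_an.Defs
import Pool.Agent.MP_434e52_an.LDefs
import Pool.Agent.MP_434e52_an.NonLin

set_option autoImplicit false

namespace Pool.Agent.Results.MP_434e52_an.NonLinearTwin

open Pool.Agent.MP_434e52_an

/-- A linear property (T) group with infinite centre has the von Neumann algebra of a group with
the same ICC central quotient which is not virtually isomorphic to any linear group. -/
theorem result : ∃ (G H : Type) (_ : Group G) (_ : Group H),
    Countable G ∧ Countable H ∧ PropT G ∧ PropT H ∧
      Infinite (Subgroup.center G) ∧ Infinite (Subgroup.center H) ∧ VNIso G H ∧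
      ICC (G ⧸ Subgroup.center G) ∧
      Nonempty (G ⧸ Subgroup.center G ≃* H ⧸ Subgroup.center H) ∧
      IsLinear G ∧ (∀ (Γ : Type) [Group Γ], IsLinear Γ → ¬ VirtIso Γ H) ∧ ¬ VirtIso G H := by
  let _ : Fintype (GaloisField 2 3) := Fintype.ofFinite _
  refine NL.twin (GaloisField 2 3) ?_
  rw [← Nat.card_eq_fintype_card, GaloisField.card 2 3 (by norm_num)]
  norm_num

end Pool.Agent.Results.MP_434e52_an.NonLinearTwin
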