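import Pool.Agent.MP_434e52_an.Defs
import Pool.Agent.MP_434e52_an.TF.Fin

set_option autoImplicit false

namespace Pool.Agent.Results.MP_434e52_an.TorsionFreeTwins

open Pool.Agent.MP_434e52_an

/-- Two commensurable torsion-free ICC subgroups of `GL_n(ℤ)` with property (T) which are not
isomorphic and have isomorphic von Neumann algebras. -/
theorem result : ∃ (n : ℕ) (G G' : Subgroup (GL (Fin n) ℤ)), Subgroup.Commensurable G G' ∧
    (∀ g : G, IsOfFinOrder g → g = 1) ∧ (∀ g : G', IsOfFinOrder g → g = 1) ∧ ICC G ∧ ICC G' ∧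
    PropT G ∧ PropT G' ∧ VNIso G G' ∧ IsEmpty (G ≃* G') :=
  TF.main

end Pool.Agent.Results.MP_434e52_an.TorsionFreeTwins
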